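import Pool.Agent.U100.DM.SymD

set_option autoImplicit false

/-!
# Symmetric powers of compositions of rational functions of arbitrary degrees (helper file)
-/

namespace Pool.Agent.U100.DM

open MvPolynomial Pool.Agent.TH838.DS
open Pool.Agent.Results.MP_b15c9e_ag.SymmetricPowers (eval_bind form_scale pull eval_pull)
open Pool.Agent.N84.TS (tau sig per fuap_mul map_per)

/-- the rational function `f_i` -/
noncomputable def rmap {k : ℕ} {d : Fin k → ℕ} (v : Idx k d → ℤ) (i : Fin k) (y : Fin 2 → ℂ) :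
    Fin 2 → ℂ :=
  fun j => ∑ e : Fin (d i + 1), (v ⟨i, (j, e)⟩ : ℂ) * (y 0 ^ (e : ℕ) * y 1 ^ (d i - (e : ℕ)))

/-- the composition `f_(w_1) ∘ ... ∘ f_(w_m)` -/
noncomputable def word {k : ℕ} {d : Fin k → ℕ} (v : Idx k d → ℤ) :
    List (Fin k) → (Fin 2 → ℂ) → Fin 2 → ℂ
  | [] => fun y => y
  | i :: w => fun y => rmap v i (word v w y)

/-- forms of degree `D` without common zero -/
def Endo {N : ℕ} (D : ℕ) (F : Fin (N + 1) → MvPolynomial (Fin (N + 1)) ℂ) : Prop :=
  (∀ i, (F i).IsHomogeneous D) ∧ ∀ x : Fin (N + 1) → ℂ, (∀ i, eval x (F i) = 0) → x = 0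

/-- `Φ` is the `N`-th symmetric power of `g`. -/
def SymPow {N : ℕ} (g : (Fin 2 → ℂ) → Fin 2 → ℂ)
    (Φ : Fin (N + 1) → MvPolynomial (Fin (N + 1)) ℂ) : Prop :=
  ∀ x : Fin N → Fin 2 → ℂ, (fun j => eval (Sy.form x) (Φ j)) = Sy.form fun i => g (x i)

theorem exists_phi {k : ℕ} {d : Fin k → ℕ} (v : Idx k d → ℤ)
    (hv : ∀ i z, z ≠ 0 → rmap v i z ≠ 0) (N : ℕ) (hN : 1 ≤ N) (w : List (Fin k)) :
    ∃ Φ : Fin (N + 1) → MvPolynomial (Fin (N + 1)) ℂ,
      Endo (w.map d).prod Φ ∧ SymPow (word v w) Φ := by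
  induction w with
  | nil =>
    refine ⟨fun j => X j, ⟨fun i => ?_, fun x hx => ?_⟩, fun x => ?_⟩
    · simpa using isHomogeneous_X ℂ i
    · funext i
      have := hx i
      rwa [eval_X] at this
    · funext j
      rw [eval_X]
      rfl
  | cons i w ih =>
    obtain ⟨Φ, ⟨h1, h2⟩, h3⟩ := ih
    let F : Fin (N + 1) → MvPolynomial (Fin (N + 1)) ℂ :=
      sF (fun q : Fin 2 × Fin (d i + 1) => ((v ⟨i, q⟩ : ℤ) : ℂ))
    have f3 : ∀ x : Fin N → Fin 2 → ℂ, (fun j => eval (Sy.form x) (F j)) =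
        Sy.form fun l => rmap v i (x l) := fun x => sF_form _ x
    have f1 : ∀ j, (F j).IsHomogeneous (d i) := fun j => sF_homog _ j
    have f2 : ∀ x : Fin (N + 1) → ℂ, (∀ j, eval x (F j) = 0) → x = 0 := by
      intro a ha
      by_contra hane
      obtain ⟨y, hy, rfl⟩ := Sy.exists_form N hN a hane
      apply form_ne_zero (fun l => rmap v i (y l)) (fun l => hv i _ (hy l))
      rw [← f3 y]
      funext j
      exact ha j
    refine ⟨fun j => aeval Φ (F j), ⟨fun j => ?_, fun x hx => ?_⟩, fun x => ?_⟩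
    · have h4 := (f1 j).aeval (g := Φ) (n := (w.map d).prod) h1
      rw [List.map_cons, List.prod_cons, Nat.mul_comm]
      exact h4
    · apply h2
      intro l
      have h5 := f2 (fun l => eval x (Φ l)) (fun j => by
        have := hx j
        rwa [eval_bind] at this)
      exact congrFun h5 l
    · have e1 : (fun j => eval (Sy.form x) (aeval Φ (F j))) =
          fun j => eval (fun l => eval (Sy.form x) (Φ l)) (F j) := by
        funext j
        rw [eval_bind]
      rw [e1, h3 x, f3 fun i => word v w (x i)]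
      rfl

/-- The self-map `(P_i) ↦ (f_(τ i) (P_(σ i)))` of `(ℙ^1)^N`. -/
noncomputable def prodMap {k N : ℕ} {d : Fin k → ℕ} (τ : Fin N → Fin k) (σ : Fin N → Fin N)
    (v : Idx k d → ℤ) (x : Fin N × Fin 2 → ℂ) : Fin N × Fin 2 → ℂ :=
  fun q => ∑ e : Fin (d (τ q.1) + 1), (v ⟨τ q.1, (q.2, e)⟩ : ℂ) *
    (x (σ q.1, 0) ^ (e : ℕ) * x (σ q.1, 1) ^ (d (τ q.1) - (e : ℕ)))

theorem prodMap_eq {k N : ℕ} {d : Fin k → ℕ} (τ : Fin N → Fin k) (σ : Fin N → Fin N)
    (v : Idx k d → ℤ) (x : Fin N × Fin 2 → ℂ) (i : Fin N) :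
    (fun l => prodMap τ σ v x (i, l)) = rmap v (τ i) fun l => x (σ i, l) := rfl

theorem iter_key {k N m : ℕ} (hm : 0 < m) {d : Fin k → ℕ} (v : Idx k d → ℤ) (w : Fin m → Fin k)
    (α : Fin (N * m) × Fin 2 → ℂ) (s : ℕ) (i : Fin N) (n : ℕ) :
    (fun l => (prodMap (tau w) (sig hm) v)^[s] α
      (finProdFinEquiv (i, ⟨n % m, Nat.mod_lt _ hm⟩), l)) =
      word v ((List.range s).map fun t => per hm w (n + t))
        (fun l => α (finProdFinEquiv (i, ⟨(n + s) % m, Nat.mod_lt _ hm⟩), l)) := by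
  induction s generalizing n with
  | zero => rfl
  | succ s ih =>
    rw [Function.iterate_succ_apply', prodMap_eq, List.range_succ_eq_map, List.map_cons,
      List.map_map]
    have h1 := ih (n + 1)
    have e1 : ((fun t => per hm w (n + t)) ∘ Nat.succ) = fun t => per hm w (n + 1 + t) := by
      funext t
      simp only [Function.comp]
      congr 1
      omega
    have e2 : (⟨(n + 1 + s) % m, Nat.mod_lt _ hm⟩ : Fin m) =
        ⟨(n + (s + 1)) % m, Nat.mod_lt _ hm⟩ := by
      apply Fin.ext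
      simp only
      congr 1
      omega
    rw [e1]
    rw [e2] at h1
    simp only [word]
    rw [← h1]
    have e3 : sig (N := N) hm (finProdFinEquiv (i, ⟨n % m, Nat.mod_lt _ hm⟩)) =
        finProdFinEquiv (i, ⟨(n + 1) % m, Nat.mod_lt _ hm⟩) := by
      simp only [sig, Equiv.symm_apply_apply, Nat.mod_add_mod]
    have e4 : tau (N := N) w (finProdFinEquiv (i, ⟨n % m, Nat.mod_lt _ hm⟩)) =
        per hm w (n + 0) := by
      simp only [tau, per, Equiv.symm_apply_apply, Nat.add_zero]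
    rw [e3, e4]

/-- The return sets of the orbit of the point `{P_1, ..., P_N}` under the symmetric power of a
composition are return sets of the map `(P_(i,j)) ↦ (f_(w_j) (P_(i,j+1)))` of `(ℙ^1)^(N m)`. -/
theorem dml_word {k N : ℕ} {d : Fin k → ℕ} (v : Idx k d → ℤ) (w : List (Fin k))
    (hm : 0 < w.length) (Φ : Fin (N + 1) → MvPolynomial (Fin (N + 1)) ℂ)
    (hΦ : SymPow (word v w) Φ) (y : Fin N → Fin 2 → ℂ)
    (hD : ∀ S : Set (MvPolynomial (Fin (N * w.length) × Fin 2) ℂ),
      (∀ g ∈ S, ∃ e : Fin (N * w.length) → ℕ, ∀ (t : Fin (N * w.length) → ℂ)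
        (x : Fin (N * w.length) × Fin 2 → ℂ),
        eval (fun q => t q.1 * x q) g = (∏ i, t i ^ e i) * eval x g) →
      ∃ T : Finset (ℕ × ℕ), {n : ℕ | ∀ g ∈ S,
        eval ((prodMap (tau (N := N) fun j : Fin w.length => w.get j) (sig hm) v)^[n]
          (fun q => y (finProdFinEquiv.symm q.1).1 q.2)) g = 0} =
        {n : ℕ | ∃ q ∈ T, ∃ c : ℕ, n = q.1 * c + q.2})
    (S : Set (MvPolynomial (Fin (N + 1)) ℂ)) (hS : ∀ g ∈ S, ∃ e : ℕ, g.IsHomogeneous e) :
    ∃ T : Finset (ℕ × ℕ), {n : ℕ | ∀ g ∈ S,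
      eval ((fun x : Fin (N + 1) → ℂ => fun i => eval x (Φ i))^[n] (Sy.form y)) g = 0} =
        {n : ℕ | ∃ q ∈ T, ∃ m : ℕ, n = q.1 * m + q.2} := by
  classical
  set m := w.length with hmdef
  set z0 : Fin m := ⟨0 % m, Nat.mod_lt _ hm⟩ with hz0
  set ww : Fin m → Fin k := fun j => w.get j with hww
  set Q := prodMap (tau (N := N) ww) (sig hm) v with hQ
  set α : Fin (N * m) × Fin 2 → ℂ := fun q => y (finProdFinEquiv.symm q.1).1 q.2 with hα
  -- one step
  have hone : ∀ (β : Fin (N * m) × Fin 2 → ℂ) (i : Fin N),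
      (fun l => Q^[m] β (finProdFinEquiv (i, z0), l)) =
        word v w (fun l => β (finProdFinEquiv (i, z0), l)) := by
    intro β i
    have h1 := iter_key hm v ww β m i 0
    have e1 : (⟨(0 + m) % m, Nat.mod_lt _ hm⟩ : Fin m) = z0 := by
      apply Fin.ext
      simp [hz0]
    rw [e1] at h1
    have e2 := map_per w hm
    rw [h1]
    exact congrArg (fun u => word v u (fun l => β (finProdFinEquiv (i, z0), l))) e2
  have hit : ∀ (n : ℕ) (i : Fin N),
      (fun l => (Q^[m])^[n] α (finProdFinEquiv (i, z0), l)) = (word v w)^[n] (y i) := by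
    intro n
    induction n with
    | zero =>
      intro i
      funext l
      simp only [Function.iterate_zero, id, hα, Equiv.symm_apply_apply]
    | succ n ih =>
      intro i
      rw [Function.iterate_succ_apply', Function.iterate_succ_apply', hone, ih i]
  have hph : ∀ n : ℕ, (fun x : Fin (N + 1) → ℂ => fun i => eval x (Φ i))^[n] (Sy.form y) =
      Sy.form fun i => (word v w)^[n] (y i) := by
    intro n
    induction n with
    | zero => rfl
    | succ n ih =>
      rw [Function.iterate_succ_apply', ih]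
      have h1 := hΦ fun i => (word v w)^[n] (y i)
      rw [h1]
      simp only [Function.iterate_succ_apply']
  -- the equations
  let pl : MvPolynomial (Fin (N + 1)) ℂ → MvPolynomial (Fin (N * m) × Fin 2) ℂ := fun g =>
    rename (fun q : Fin N × Fin 2 => ((finProdFinEquiv (q.1, z0) : Fin (N * m)), q.2)) (pull g)
  have hpl : ∀ g x, eval x (pl g) =
      eval (Sy.form fun (i : Fin N) (l : Fin 2) => x (finProdFinEquiv (i, z0), l)) g := by
    intro g x
    simp only [pl]
    rw [eval_rename, eval_pull]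
    rfl
  have hmh : ∀ g (e : ℕ), g.IsHomogeneous e →
      ∃ e : Fin (N * m) → ℕ, ∀ (t : Fin (N * m) → ℂ) (x : Fin (N * m) × Fin 2 → ℂ),
        eval (fun q => t q.1 * x q) (pl g) = (∏ i, t i ^ e i) * eval x (pl g) := by
    intro g e he
    refine ⟨fun q => if (finProdFinEquiv.symm q).2 = z0 then e else 0, fun t x => ?_⟩
    rw [hpl, hpl]
    have h1 := form_scale (fun i : Fin N => t (finProdFinEquiv (i, z0)))
      fun i l => x (finProdFinEquiv (i, z0), l)
    rw [h1, Pool.Agent.H936R2.eval_scale g e he]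
    congr 1
    rw [← Finset.prod_pow, ← Equiv.prod_comp finProdFinEquiv, Fintype.prod_prod_type]
    refine Finset.prod_congr rfl fun i _ => ?_
    rw [Finset.prod_eq_single z0]
    · simp only [Equiv.symm_apply_apply, if_true]
    · intro j _ hj
      simp only [Equiv.symm_apply_apply, if_neg hj, pow_zero]
    · intro h
      exact absurd (Finset.mem_univ _) h
  obtain ⟨T, hT⟩ := hD (pl '' S) (by
    rintro _ ⟨g, hg, rfl⟩
    obtain ⟨e, he⟩ := hS g hg
    exact hmh g e he)
  obtain ⟨T', hT'⟩ := fuap_mul T m hm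
  refine ⟨T', ?_⟩
  rw [← hT']
  ext n
  have h3 : (∃ q ∈ T, ∃ c : ℕ, m * n = q.1 * c + q.2) ↔
      m * n ∈ {k : ℕ | ∀ g ∈ pl '' S, eval (Q^[k] α) g = 0} := by
    rw [hT]
    rfl
  rw [Set.mem_ofPred_eq, Set.mem_ofPred_eq, h3, Set.mem_ofPred_eq, Set.forall_mem_image]
  apply forall₂_congr
  intro g _
  have h6 : (fun (i : Fin N) (l : Fin 2) => Q^[m * n] α (finProdFinEquiv (i, z0), l)) =
      fun i => (word v w)^[n] (y i) := by
    funext i
    rw [Function.iterate_mul]
    exact hit n i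
  rw [hph n, hpl, h6]

end Pool.Agent.U100.DM
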