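import Pool.Agent.H927R2.RD.Final2
import Pool.Agent.H684R3.Smo.Task8
import Pool.Agent.TH838.DS.QSieve
import Pool.Agent.U100.ZP.Seq
import Pool.Agent.Results.MP_295d38_ag.EndomorphismsOfLinePowers

/-!
# Pronull sets of coefficient vectors: rational functions without critical points modulo primes of
degree one of a number field, good tuples of quadratic functions, resultants (helper file)
-/

set_option autoImplicit false

namespace Pool.Agent.U100.DM

open MvPolynomial Filter Topology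
open Pool.Agent.N24.RW (ProNull crit clo)
open Pool.Agent.H927R2.RD (DegOne)
open Pool.Agent.TH838.DS (NoCrit GoodT count_noCrit count_good)
open Pool.Agent.Results.MP_295d38_ag

/-! ### Primes of degree one: countably many sets -/

theorem degOne_of_iso {K K' : Type} [Field K] [NumberField K] [Field K'] [NumberField K']
    (e : K ≃+* K') {p : ℕ} (h : DegOne K p) : DegOne K' p := by
  obtain ⟨hp, I, hI⟩ := h
  let e' : NumberField.RingOfIntegers K ≃+* NumberField.RingOfIntegers K' :=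
    NumberField.RingOfIntegers.mapRingEquiv e
  refine ⟨hp, I.map (e' : NumberField.RingOfIntegers K →+* NumberField.RingOfIntegers K'), ?_⟩
  rw [← hI, Ideal.absNorm_apply, Ideal.absNorm_apply, Submodule.cardQuot_apply,
    Submodule.cardQuot_apply]
  exact (Nat.card_congr (Ideal.quotientEquiv I _ e' rfl).toEquiv).symm

/-- the sets of primes of degree one of a number field outside a finite set -/
@[ext]
structure Pr where
  C : Set ℕ
  out : ∃ (K : Type) (_ : Field K) (_ : NumberField K) (S : Finset ℕ),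
    C = {p | DegOne K p ∧ p ∉ S}

instance : Countable Pr := by
  classical
  choose K i1 i2 S hS using fun P : Pr => P.out
  choose α hα using fun P : Pr => Field.exists_primitive_element ℚ (K P)
  have hcP : Countable (Polynomial ℚ) := by
    rw [← Cardinal.mk_le_aleph0_iff]
    exact Polynomial.cardinalMk_le_max.trans (by simp)
  refine Function.Injective.countable (f := fun P : Pr => (minpoly ℚ (α P), S P)) ?_
  intro P P' h
  obtain ⟨h1, h2⟩ := Prod.mk.inj h
  apply Pr.ext
  rw [hS P, hS P', h2]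
  -- the isomorphism
  have e : K P ≃+* K P' := by
    have a1 : IsIntegral ℚ (α P) := Algebra.IsIntegral.isIntegral _
    have a2 : IsIntegral ℚ (α P') := Algebra.IsIntegral.isIntegral _
    have e1 := (IntermediateField.adjoinRootEquivAdjoin ℚ a1).trans
      ((IntermediateField.equivOfEq (hα P)).trans IntermediateField.topEquiv)
    have e2 := (IntermediateField.adjoinRootEquivAdjoin ℚ a2).trans
      ((IntermediateField.equivOfEq (hα P')).trans IntermediateField.topEquiv)
    rw [h1] at e1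
    exact (e1.symm.trans e2).toRingEquiv
  ext p
  simp only [Set.mem_ofPred_eq]
  constructor
  · rintro ⟨h3, h4⟩
    exact ⟨degOne_of_iso e h3, h4⟩
  · rintro ⟨h3, h4⟩
    exact ⟨degOne_of_iso e.symm h3, h4⟩

theorem Pr.prime (P : Pr) {p : ℕ} (hp : p ∈ P.C) : p.Prime := by
  obtain ⟨K, _, _, S, h⟩ := P.out
  rw [h] at hp
  exact hp.1.1

theorem Pr.infinite (P : Pr) : P.C.Infinite := by
  classical
  obtain ⟨K, _, _, S, h⟩ := P.out
  obtain ⟨θ, hθ, y₀, hy₀⟩ := Pool.Agent.H684R3.Smo.t8 K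
  intro hfin
  rw [h] at hfin
  have h1 : {p | DegOne K p}.Finite := by
    refine (hfin.union S.finite_toSet).subset ?_
    intro p hp
    by_cases h2 : p ∈ S
    · exact Or.inr h2
    · exact Or.inl ⟨hp, h2⟩
  have h2 : Tendsto (fun y : ℕ => (y : ℝ) ^ θ) atTop atTop :=
    (tendsto_rpow_atTop hθ).comp tendsto_natCast_atTop_atTop
  obtain ⟨y₁, hy₁⟩ := eventually_atTop.1 (h2.eventually_gt_atTop ({p | DegOne K p}.ncard : ℝ))
  have h3 := hy₀ (max y₀ y₁) (le_max_left _ _)
  have h4 := hy₁ (max y₀ y₁) (le_max_right _ _)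
  have h5 : Nat.card {p : ℕ // (p.Prime ∧ Pool.Agent.H692R2.USS.HasDegOne K p) ∧ p ≤ max y₀ y₁} ≤
      {p | DegOne K p}.ncard := by
    rw [← Nat.card_coe_set_eq]
    have : Finite {p | DegOne K p} := h1
    refine Nat.card_le_card_of_injective (fun x => ⟨x.1, ?_⟩) ?_
    · obtain ⟨p, ⟨hp, v, hv⟩, -⟩ := x
      exact ⟨hp, v.asIdeal, hv⟩
    · intro x y hxy
      exact Subtype.ext (congrArg (fun z => z.1) hxy)
  have h6 : (Nat.card {p : ℕ // (p.Prime ∧ Pool.Agent.H692R2.USS.HasDegOne K p) ∧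
      p ≤ max y₀ y₁} : ℝ) ≤ ({p | DegOne K p}.ncard : ℝ) := by exact_mod_cast h5
  linarith

/-- a constant weight on an infinite set of primes -/
theorem not_summable {P : Set ℕ} (hP : P.Infinite) (hp : ∀ p ∈ P, p.Prime) {κ : ℝ} (hκ : 0 < κ)
    [DecidablePred (· ∈ P)] :
    ¬ Summable (fun p : ℕ => if p.Prime then (if p ∈ P then κ else 0) else 0) := by
  intro hs
  have h1 := hs.tendsto_cofinite_zero
  have h2 := (h1.eventually (gt_mem_nhds hκ))
  rw [Filter.eventually_cofinite] at h2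
  refine hP (h2.subset fun p hpP => ?_)
  rw [Set.mem_ofPred_eq, if_pos (hp p hpP), if_pos hpP]
  exact lt_irrefl _

/-! ### Pairs of forms without critical points -/

/-- Indices of the coefficients of `k` pairs of binary forms, those of the `j`-th pair being of
degree `d j`. -/
abbrev Idx (k : ℕ) (d : Fin k → ℕ) : Type := Σ j : Fin k, Fin 2 × Fin (d j + 1)

/-- the coefficient vectors with no good residue at a prime of `P` -/
def BadN {k : ℕ} (d : Fin k → ℕ) (P : Set ℕ) : Set (Idx k d → ℤ) :=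
  {v | ∀ p, p.Prime → 8 * ∑ j, d j < p → p ∈ P → ¬ ∃ _ : Fact p.Prime,
    ∀ j, NoCrit fun e : Fin 2 × Fin (d j + 1) => ((v ⟨j, e⟩ : ℤ) : ZMod p)}

theorem badN_null {k : ℕ} {d : Fin k → ℕ} (hd : ∀ j, 1 ≤ d j) (P : Pr) : ProNull (BadN d P.C) := by
  classical
  have h1 := crit (Idx k d) (fun p => p) (fun p hp => hp.one_lt.le)
    (fun p p' hp hp' hne => (Nat.coprime_primes hp hp').2 hne)
    (fun p => {w : Idx k d → ZMod p | p ∈ P.C ∧ ∃ _ : Fact p.Prime,
      ∀ j, NoCrit fun e : Fin 2 × Fin (d j + 1) => w ⟨j, e⟩}) (8 * ∑ j, d j)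
    (fun p => if p ∈ P.C then ∏ j : Fin k, (1 / (16 * (d j : ℝ))) else 0)
    (fun p => by
      split_ifs
      · exact Finset.prod_nonneg fun j _ => by positivity
      · exact le_rfl)
    (not_summable P.infinite (fun p hp => P.prime hp) (Finset.prod_pos fun j _ => by
      have : (1 : ℝ) ≤ d j := by exact_mod_cast hd j
      positivity))
    (by
      intro p hp hT
      have hpp : Fact p.Prime := ⟨hp⟩
      split_ifs with hpP
      · have h2 := EndomorphismsOfLinePowers.prod_card (p := p) (N := k) (d := d)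
          (fun j => {c | NoCrit c}) (fun j => 1 / (16 * (d j : ℝ))) (fun j => by positivity)
          (fun j => count_noCrit (hd j) (by
            have h3 : d j ≤ ∑ j, d j := Finset.single_le_sum (f := d)
              (fun _ _ => Nat.zero_le _) (Finset.mem_univ j)
            omega))
        refine h2.trans (le_of_eq ?_)
        rw [← Nat.card_coe_set_eq]
        congr 1
        refine Nat.card_congr (Equiv.subtypeEquivRight fun w => ?_)
        exact ⟨fun h => ⟨hpP, hpp, h⟩, fun h => h.2.2⟩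
      · rw [zero_mul]
        exact Nat.cast_nonneg _)
  refine (clo (Idx k d)).1 _ _ ?_ h1
  intro v hv p hp hT hmem
  exact hv p hp hT hmem.1 hmem.2

/-! ### Good tuples of quadratic functions -/

/-- the vectors that are not good tuples at any odd prime -/
def BadQ (k : ℕ) : Set (Fin k × Fin 2 × Fin (2 + 1) → ℤ) :=
  {v | ¬ ∃ (p : ℕ) (_ : Fact p.Prime), p ≠ 2 ∧
    GoodT fun (i : Fin k) (q : Fin 2 × Fin (2 + 1)) => ((v (i, q) : ℤ) : ZMod p)}

theorem badQ_null {k : ℕ} (hk : 1 ≤ k) : ProNull (BadQ k) := by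
  classical
  have hne : Nonempty (Fin k) := ⟨⟨0, hk⟩⟩
  have hcard : Fintype.card (Fin k × Fin 2 × Fin (2 + 1)) = 6 * k := by
    rw [Fintype.card_prod, Fintype.card_prod, Fintype.card_fin, Fintype.card_fin,
      Fintype.card_fin]
    ring
  have h1 := crit (Fin k × Fin 2 × Fin (2 + 1)) (fun p => p) (fun p hp => hp.one_lt.le)
    (fun p p' hp hp' hne => (Nat.coprime_primes hp hp').2 hne)
    (fun p => {w : Fin k × Fin 2 × Fin (2 + 1) → ZMod p | ∃ _ : Fact p.Prime,
      GoodT fun (i : Fin k) (q : Fin 2 × Fin (2 + 1)) => w (i, q)}) (2 * 16 ^ k)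
    (fun p => 1 / (2 * 4 ^ k * 16 ^ (k * k))) (fun p => by positivity)
    (by
      have h2 := not_summable (P := {p | p.Prime}) Nat.infinite_setOfPred_prime (fun p hp => hp)
        (κ := 1 / (2 * 4 ^ k * 16 ^ (k * k))) (by positivity)
      refine fun h3 => h2 (h3.congr fun p => ?_)
      by_cases hp : p.Prime
      · rw [if_pos hp, if_pos hp, if_pos (show p ∈ {p | p.Prime} from hp)]
      · rw [if_neg hp, if_neg hp])
    (by
      intro p hp hT
      have hpp : Fact p.Prime := ⟨hp⟩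
      have h2 := count_good (p := p) (ι := Fin k) (by rw [Fintype.card_fin]; exact hT.le)
      rw [Fintype.card_fin] at h2
      rw [hcard]
      refine h2.trans (le_of_eq ?_)
      rw [← Nat.card_coe_set_eq]
      congr 1
      let E : (Fin k → Fin 2 × Fin (2 + 1) → ZMod p) ≃ ((Fin k × Fin 2 × Fin (2 + 1)) → ZMod p) :=
        { toFun := fun c j => c j.1 j.2
          invFun := fun w i q => w (i, q)
          left_inv := fun c => rfl
          right_inv := fun w => rfl }
      refine Nat.card_congr (E.subtypeEquiv fun c => ?_)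
      constructor
      · intro h
        exact ⟨hpp, h⟩
      · rintro ⟨_, h⟩
        exact h)
  refine (clo _).1 _ _ ?_ h1
  intro v hv p hp hT hmem
  obtain ⟨hpp, h⟩ := hmem
  refine hv ⟨p, hpp, ?_, h⟩
  have h1 : 16 ^ 1 ≤ 16 ^ k := Nat.pow_le_pow_right (by norm_num) hk
  omega

/-! ### Resultants -/

section

variable {R : Type} [CommRing R]

/-- the Sylvester matrix of a pair of binary forms of degree `d` -/
def syl {d : ℕ} (c : Fin 2 × Fin (d + 1) → R) : Matrix (Fin 2 × Fin d) (Fin 2 × Fin d) R :=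
  Matrix.of fun a b => ∑ e : Fin (d + 1),
    if (e : ℕ) + (a.2 : ℕ) = (b.2 : ℕ) + d * (b.1 : ℕ) then c (a.1, e) else 0

theorem syl_mulVec {d : ℕ} (c : Fin 2 × Fin (d + 1) → R) (x y : R) :
    (syl c).mulVec (fun b => x ^ ((b.2 : ℕ) + d * (b.1 : ℕ)) *
      y ^ (2 * d - 1 - ((b.2 : ℕ) + d * (b.1 : ℕ)))) =
      fun a => x ^ (a.2 : ℕ) * y ^ (d - 1 - (a.2 : ℕ)) *
        ∑ e : Fin (d + 1), c (a.1, e) * (x ^ (e : ℕ) * y ^ (d - (e : ℕ))) := by
  funext a
  have h1 : ∀ (e : Fin (d + 1)) , ∑ b : Fin 2 × Fin d,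
      (if (e : ℕ) + (a.2 : ℕ) = (b.2 : ℕ) + d * (b.1 : ℕ) then c (a.1, e) else 0) *
        (x ^ ((b.2 : ℕ) + d * (b.1 : ℕ)) * y ^ (2 * d - 1 - ((b.2 : ℕ) + d * (b.1 : ℕ)))) =
      c (a.1, e) * (x ^ ((e : ℕ) + (a.2 : ℕ)) * y ^ (2 * d - 1 - ((e : ℕ) + (a.2 : ℕ)))) := by
    intro e
    have h2 := Equiv.sum_comp (finProdFinEquiv (m := 2) (n := d)) (fun m : Fin (2 * d) =>
      (if (e : ℕ) + (a.2 : ℕ) = (m : ℕ) then c (a.1, e) else 0) *
        (x ^ (m : ℕ) * y ^ (2 * d - 1 - (m : ℕ))))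
    have h3 : ∀ b : Fin 2 × Fin d, ((finProdFinEquiv b : Fin (2 * d)) : ℕ) =
        (b.2 : ℕ) + d * (b.1 : ℕ) := fun b => rfl
    simp only [h3] at h2
    rw [h2]
    have hlt : (e : ℕ) + (a.2 : ℕ) < 2 * d := by
      have := a.2.2
      have := e.2
      omega
    rw [Finset.sum_eq_single (⟨(e : ℕ) + (a.2 : ℕ), hlt⟩ : Fin (2 * d))]
    · rw [if_pos rfl]
    · intro b _ hb
      rw [if_neg (fun h => hb (Fin.ext h.symm)), zero_mul]
    · intro h
      exact absurd (Finset.mem_univ _) h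
  simp only [Matrix.mulVec, dotProduct, syl, Matrix.of_apply, Finset.sum_mul]
  rw [Finset.sum_comm, Finset.mul_sum]
  refine Finset.sum_congr rfl fun e _ => ?_
  rw [h1]
  have h4 := a.2.2
  have h5 := e.2
  have h6 : 2 * d - 1 - ((e : ℕ) + (a.2 : ℕ)) = (d - 1 - (a.2 : ℕ)) + (d - (e : ℕ)) := by omega
  rw [h6, pow_add, pow_add]
  ring

end

theorem no_common {d : ℕ} (hd : 1 ≤ d) (c : Fin 2 × Fin (d + 1) → ℂ) (hc : (syl c).det ≠ 0)
    (x y : ℂ) (h : ∀ j : Fin 2, ∑ e : Fin (d + 1), c (j, e) * (x ^ (e : ℕ) * y ^ (d - (e : ℕ))) = 0) :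
    x = 0 ∧ y = 0 := by
  by_contra hxy
  apply hc
  rw [← Matrix.exists_mulVec_eq_zero_iff]
  refine ⟨_, ?_, (syl_mulVec c x y).trans ?_⟩
  · intro h0
    by_cases hx : x = 0
    · have hy : y ≠ 0 := fun hy => hxy ⟨hx, hy⟩
      have h1 := congrFun h0 (0, ⟨0, hd⟩)
      simp only [Fin.val_zero, mul_zero, add_zero, pow_zero, one_mul, Pi.zero_apply] at h1
      exact hy ((pow_eq_zero_iff (by omega)).1 h1)
    · have h1 := congrFun h0 (1, ⟨d - 1, by omega⟩)
      simp only [Fin.val_one, mul_one, Pi.zero_apply] at h1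
      have h2 : 2 * d - 1 - (d - 1 + d) = 0 := by omega
      rw [h2, pow_zero, mul_one] at h1
      exact hx ((pow_eq_zero_iff (by omega)).1 h1)
  · funext a
    rw [h a.1, mul_zero]
    rfl

/-- the resultant as a polynomial in the coefficients of the `j`-th pair -/
noncomputable def resP {k : ℕ} (d : Fin k → ℕ) (j : Fin k) : MvPolynomial (Idx k d) ℤ :=
  (syl fun e : Fin 2 × Fin (d j + 1) => (X ⟨j, e⟩ : MvPolynomial (Idx k d) ℤ)).det

theorem map_syl {R S : Type} [CommRing R] [CommRing S] (φ : R →+* S) {d : ℕ}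
    (c : Fin 2 × Fin (d + 1) → R) : φ (syl c).det = (syl fun e => φ (c e)).det := by
  rw [RingHom.map_det]
  congr 1
  ext a b
  simp only [RingHom.mapMatrix_apply, Matrix.map_apply, syl, Matrix.of_apply, map_sum]
  refine Finset.sum_congr rfl fun e _ => ?_
  split_ifs
  · rfl
  · exact map_zero φ

theorem eval_resP {k : ℕ} (d : Fin k → ℕ) (j : Fin k) (v : Idx k d → ℤ) :
    ((eval v (resP d j) : ℤ) : ℂ) = (syl fun e => ((v ⟨j, e⟩ : ℤ) : ℂ)).det := by
  unfold resP
  rw [map_syl (eval v)]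
  have h1 := map_syl (Int.castRingHom ℂ) (fun e : Fin 2 × Fin (d j + 1) =>
    eval v (X ⟨j, e⟩ : MvPolynomial (Idx k d) ℤ))
  rw [eq_intCast] at h1
  rw [h1]
  congr 2
  funext e
  rw [eval_X, eq_intCast]

theorem resP_ne_zero {k : ℕ} (d : Fin k → ℕ) (j : Fin k) : resP d j ≠ 0 := by
  classical
  intro h0
  let v : Idx k d → ℤ := fun q =>
    if ((q.2.1 : ℕ) = 0 ∧ (q.2.2 : ℕ) = 0) ∨ ((q.2.1 : ℕ) = 1 ∧ (q.2.2 : ℕ) = d q.1) then 1 else 0
  have h1 := eval_resP d j v
  rw [h0, map_zero, Int.cast_zero] at h1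
  have h2 : (syl fun e : Fin 2 × Fin (d j + 1) => ((v ⟨j, e⟩ : ℤ) : ℂ)) = 1 := by
    ext a b
    simp only [syl, Matrix.of_apply]
    rw [Finset.sum_eq_single (if (a.1 : ℕ) = 0 then (0 : Fin (d j + 1)) else Fin.last (d j))]
    · obtain ⟨a1, a2⟩ := a
      obtain ⟨b1, b2⟩ := b
      have ha := a2.2
      have hb := b2.2
      rw [Matrix.one_apply]
      simp only [v, Prod.mk.injEq]
      fin_cases a1 <;> fin_cases b1 <;> simp [Fin.ext_iff] <;> first | omega | (congr 1; apply propext; omega)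
    · intro e _ he
      have h3 : v ⟨j, (a.1, e)⟩ = 0 := by
        simp only [v]
        rw [if_neg]
        rintro (⟨h4, h5⟩ | ⟨h4, h5⟩)
        · apply he
          rw [if_pos h4]
          exact Fin.ext h5
        · apply he
          rw [if_neg (by omega)]
          exact Fin.ext h5
      rw [h3]
      simp
    · intro h
      exact absurd (Finset.mem_univ _) h
  rw [h2, Matrix.det_one] at h1
  exact zero_ne_one h1

/-- the coefficient vectors for which some pair has resultant zero -/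
def BadR {k : ℕ} (d : Fin k → ℕ) : Set (Idx k d → ℤ) := {v | ∃ j, eval v (resP d j) = 0}

theorem badR_null {k : ℕ} (d : Fin k → ℕ) : ProNull (BadR d) := by
  classical
  have h1 := (clo (Idx k d)).2.2.2.1 (∏ j, resP d j)
    (Finset.prod_ne_zero_iff.2 fun j _ => resP_ne_zero d j)
  refine (clo (Idx k d)).1 _ _ ?_ h1
  rintro v ⟨j, hj⟩
  rw [Set.mem_ofPred_eq, map_prod]
  exact Finset.prod_eq_zero (Finset.mem_univ j) hj

end Pool.Agent.U100.DM
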