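import Pool.Agent.N84.TS.Word
import Pool.Agent.U100.DM.Null

set_option autoImplicit false

/-!
# Symmetric powers of rational functions of arbitrary degree, through resultants (helper file)
-/

namespace Pool.Agent.U100.DM

open Polynomial
open Pool.Agent.TH838.DS

section res

variable {S : Type} [CommRing S]

theorem res_one [IsDomain S] (n : ℕ) (a b : S) (g : S[X]) (hg : g.natDegree ≤ n) :
    resultant (C a + C b * X) g 1 n =
      ∑ e ∈ Finset.range (n + 1), g.coeff e * ((-a) ^ e * b ^ (n - e)) := by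
  by_cases hb : b = 0
  · subst hb
    rw [map_zero, zero_mul, add_zero, resultant_C_left, Finset.sum_range_succ,
      Finset.sum_eq_zero, zero_add, one_mul, pow_one, Nat.sub_self, pow_zero, mul_one, neg_pow]
    · ring
    · intro e he
      rw [Finset.mem_range] at he
      rw [zero_pow (by omega), mul_zero, mul_zero]
  · let K := FractionRing S
    let φ : S →+* K := algebraMap S K
    have hφ : Function.Injective φ := IsFractionRing.injective S K
    have hbK : φ b ≠ 0 := fun h => hb (hφ (by rw [h, map_zero]))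
    apply hφ
    rw [← resultant_map_map]
    have h1 : (C a + C b * X : S[X]).map φ = C (φ b) * (X + C (φ a / φ b)) := by
      simp only [Polynomial.map_add, Polynomial.map_mul, Polynomial.map_C, Polynomial.map_X]
      rw [mul_add, ← C_mul, mul_div_cancel₀ _ hbK, add_comm]
    have hg' : (g.map φ).natDegree ≤ n := (natDegree_map_le).trans hg
    rw [h1, resultant_C_mul_left, resultant_X_add_C_left _ _ _ hg',
      eval_eq_sum_range' (Nat.lt_succ_of_le hg'), Finset.mul_sum, map_sum]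
    refine Finset.sum_congr rfl fun e he => ?_
    rw [Finset.mem_range] at he
    rw [coeff_map, map_mul, map_mul, map_pow, map_pow, map_neg]
    have h2 : φ b ^ n = φ b ^ e * φ b ^ (n - e) := by
      rw [← pow_add]
      congr 1
      omega
    have h3 : φ b ^ e ≠ 0 := pow_ne_zero _ hbK
    rw [h2, ← neg_div, div_pow, mul_comm (φ b ^ e), mul_assoc, mul_left_comm (φ b ^ e),
      mul_div_cancel₀ _ h3]
    ring

end res

section

variable {R : Type} [CommRing R]

/-- the pair of forms of degree `d` with coefficients `v` -/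
def qm {d : ℕ} (v : Fin 2 × Fin (d + 1) → R) (y : Fin 2 → R) : Fin 2 → R :=
  fun j => ∑ e : Fin (d + 1), v (j, e) * (y 0 ^ (e : ℕ) * y 1 ^ (d - (e : ℕ)))

noncomputable def bq {d : ℕ} (v : Fin 2 × Fin (d + 1) → R) : R[X][X] :=
  ∑ e : Fin (d + 1), C (C (v (0, e)) + C (v (1, e)) * X) * (-X) ^ (e : ℕ)

noncomputable def RR {N d : ℕ} (a : Fin (N + 1) → R) (v : Fin 2 × Fin (d + 1) → R) : R[X] :=
  resultant (Sy.ap a) (bq v) N d

theorem map_bq {S : Type} [CommRing S] (φ : R →+* S) {d : ℕ} (v : Fin 2 × Fin (d + 1) → R) :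
    (bq v).map (mapRingHom φ) = bq fun j => φ (v j) := by
  simp [bq, Polynomial.map_sum]

theorem map_RR {S : Type} [CommRing S] (φ : R →+* S) {N d : ℕ} (a : Fin (N + 1) → R)
    (v : Fin 2 × Fin (d + 1) → R) :
    (RR a v).map φ = RR (fun j => φ (a j)) fun j => φ (v j) := by
  unfold RR
  rw [← Sy.map_ap, ← map_bq, resultant_map_map]
  rfl

theorem bq_coeff {d : ℕ} (v : Fin 2 × Fin (d + 1) → R) (e : Fin (d + 1)) :
    (bq v).coeff (e : ℕ) = (-1) ^ (e : ℕ) * (C (v (0, e)) + C (v (1, e)) * X) := by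
  unfold bq
  rw [finsetSum_coeff, Finset.sum_eq_single e]
  · rw [neg_pow (X : R[X][X]), ← mul_assoc, mul_comm (C (C (v (0, e)) + C (v (1, e)) * X)),
      mul_assoc]
    have h1 : ((-1 : R[X][X]) ^ (e : ℕ)) = C ((-1 : R[X]) ^ (e : ℕ)) := by simp
    rw [h1, coeff_C_mul, coeff_C_mul, coeff_X_pow, if_pos rfl, mul_one]
  · intro b _ hb
    rw [neg_pow (X : R[X][X]), ← mul_assoc, mul_comm (C (C (v (0, b)) + C (v (1, b)) * X)),
      mul_assoc]
    have h1 : ((-1 : R[X][X]) ^ (b : ℕ)) = C ((-1 : R[X]) ^ (b : ℕ)) := by simp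
    rw [h1, coeff_C_mul, coeff_C_mul, coeff_X_pow, if_neg (fun h => hb (Fin.ext h.symm)), mul_zero,
      mul_zero]
  · intro h
    exact absurd (Finset.mem_univ _) h

theorem natDegree_bq {d : ℕ} (v : Fin 2 × Fin (d + 1) → R) : (bq v).natDegree ≤ d := by
  unfold bq
  apply natDegree_sum_le_of_forall_le
  intro e _
  have he : (e : ℕ) ≤ d := by omega
  refine (natDegree_C_mul_le _ _).trans ?_
  have h1 : ((-X : R[X][X]) ^ (e : ℕ)).natDegree ≤ (e : ℕ) * (-X : R[X][X]).natDegree :=
    natDegree_pow_le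
  rw [natDegree_neg] at h1
  have h2 : (X : R[X][X]).natDegree ≤ 1 := natDegree_X_le
  nlinarith

/-- The key identity. -/
theorem RR_form [IsDomain R] {N d : ℕ} (x : Fin N → Fin 2 → R) (v : Fin 2 × Fin (d + 1) → R) :
    RR (Sy.form x) v = Sy.fp fun i => qm v (x i) := by
  unfold RR
  rw [Sy.ap_form, Sy.res_prod _ _ (natDegree_bq v) _ _ (fun i => by compute_degree)]
  unfold Sy.fp
  refine Finset.prod_congr rfl fun i _ => ?_
  rw [res_one _ _ _ _ (natDegree_bq v), Finset.sum_range]
  simp only [qm, map_sum]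
  rw [Finset.sum_mul, ← Finset.sum_add_distrib]
  refine Finset.sum_congr rfl fun e _ => ?_
  rw [bq_coeff]
  have h1 : (-C (x i 0) : R[X]) ^ (e : ℕ) = (-1) ^ (e : ℕ) * C (x i 0) ^ (e : ℕ) := by
    rw [neg_pow]
  rw [h1]
  have h2 : ((-1 : R[X]) ^ (e : ℕ)) * (-1) ^ (e : ℕ) = 1 := by
    rw [← mul_pow]
    simp
  simp only [map_mul, map_pow]
  linear_combination ((C (v (0, e)) + C (v (1, e)) * X) * (C (x i 0) ^ (e : ℕ) *
    C (x i 1) ^ (d - (e : ℕ)))) * h2

theorem RR_smul {N d : ℕ} (t : R) (a : Fin (N + 1) → R) (v : Fin 2 × Fin (d + 1) → R) :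
    RR (fun j => t * a j) v = C (t ^ d) * RR a v := by
  unfold RR
  have h : Sy.ap (fun j => t * a j) = C (C t) * Sy.ap a := by
    unfold Sy.ap
    rw [Finset.mul_sum]
    refine Finset.sum_congr rfl fun j _ => ?_
    rw [C_mul, C_mul, mul_assoc]
  rw [h, resultant_C_mul_left, map_pow]

end

/-- The `N`-th symmetric power of a rational function, as a system of forms. -/
noncomputable def sF {N d : ℕ} (v : Fin 2 × Fin (d + 1) → ℂ) :
    Fin (N + 1) → MvPolynomial (Fin (N + 1)) ℂ := fun j =>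
  (RR (fun i => MvPolynomial.X i) fun q => MvPolynomial.C (v q)).coeff j

theorem eval_sF {N d : ℕ} (v : Fin 2 × Fin (d + 1) → ℂ) (a : Fin (N + 1) → ℂ) (j : Fin (N + 1)) :
    MvPolynomial.eval a (sF v j) = (RR a v).coeff j := by
  have h := map_RR (MvPolynomial.eval a) (fun i : Fin (N + 1) => MvPolynomial.X (R := ℂ) i)
    fun q => MvPolynomial.C (v q)
  simp only [MvPolynomial.eval_X, MvPolynomial.eval_C] at h
  rw [← h, coeff_map]
  rfl

theorem sF_form {N d : ℕ} (v : Fin 2 × Fin (d + 1) → ℂ) (x : Fin N → Fin 2 → ℂ) :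
    (fun j => MvPolynomial.eval (Sy.form x) (sF v j)) = Sy.form fun i => qm v (x i) := by
  funext j
  rw [eval_sF, RR_form]
  rfl

theorem sF_homog {N d : ℕ} (v : Fin 2 × Fin (d + 1) → ℂ) (j : Fin (N + 1)) :
    (sF v j).IsHomogeneous d := by
  apply Sy.homog_of_eval
  intro t a
  rw [eval_sF, eval_sF, RR_smul, coeff_C_mul]

theorem form_ne_zero {N : ℕ} (x : Fin N → Fin 2 → ℂ) (hx : ∀ i, x i ≠ 0) : Sy.form x ≠ 0 := by
  intro h
  have h1 : Sy.fp x = 0 := by
    ext j
    rw [Polynomial.coeff_zero]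
    by_cases hj : j < N + 1
    · exact congrFun h ⟨j, hj⟩
    · apply Polynomial.coeff_eq_zero_of_natDegree_lt
      have := Sy.natDegree_fp x
      omega
  unfold Sy.fp at h1
  rw [Finset.prod_eq_zero_iff] at h1
  obtain ⟨i, -, hi⟩ := h1
  apply hx i
  have h2 := congrArg (fun g => Polynomial.coeff g 0) hi
  have h3 := congrArg (fun g => Polynomial.coeff g 1) hi
  simp at h2 h3
  funext k
  fin_cases k
  · exact h2
  · simpa [Polynomial.coeff_C] using h3

end Pool.Agent.U100.DM
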